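import Mathlib
import Pool.Agent.EDG.Stmts

/-! EDG row CNG. -/

set_option autoImplicit false

namespace Pool.Agent.EDG.H15

open Polynomial Finset

lemma cng_two {R : Type*} [CommRing R] (b : R) (j : ℕ) : ∃ r : R, it b (-b) j = b ^ (2 ^ j) + 2 * r := by
  induction j with
  | zero => exact ⟨-b, by rw [it_zero]; ring⟩
  | succ j ih =>
    obtain ⟨r, hr⟩ := ih
    refine ⟨2 * b ^ (2 ^ j) * r + 2 * r ^ 2 + b * it b (-b) j, ?_⟩
    rw [it_succ]
    have h2 : b ^ (2 ^ (j + 1)) = (b ^ (2 ^ j)) ^ 2 := by rw [← pow_mul, pow_succ]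
    have h3 : it b (-b) j ^ 2 = (b ^ (2 ^ j) + 2 * r) ^ 2 := by rw [hr]
    rw [h2, h3]
    ring

lemma cng_contr {R : Type*} [CommRing R] (b a r0 : R) (s : ℕ) :
    ∃ r : R, it b (a + 2 * r0) s = it b a s + 2 ^ (s + 1) * r := by
  induction s with
  | zero => exact ⟨r0, by rw [it_zero, it_zero]; ring⟩
  | succ s ih =>
    obtain ⟨r, hr⟩ := ih
    refine ⟨it b a s * r + 2 ^ s * r ^ 2 + b * r, ?_⟩
    rw [it_succ, it_succ, hr]
    ring

lemma cng_per {R : Type*} [CommRing R] (b : R) (n : ℕ) (hn : it b (-b) n = -b) (k i : ℕ) :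
    it b (-b) (n * k + i) = it b (-b) i := by
  induction k with
  | zero => simp
  | succ k ih =>
    rw [show n * (k + 1) + i = n + (n * k + i) by ring, it_add, hn, ih]

theorem cng : CngStmt := by
  intro n g hc s
  have hn := hc.npos
  refine ⟨(2 * n - 1) * s, ?_, ?_⟩
  · exact Nat.le_mul_of_pos_left s (by omega)
  intro R _ b hb i
  have hper : it b (-b) n = -b := by
    obtain ⟨q, hq⟩ := hc.per
    have h1 := congrArg (aeval b) hq
    rw [map_sub, map_mul, hb, zero_mul, aeval_Yp, aeval_Yp, it_zero] at h1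
    exact sub_eq_zero.mp h1
  set M := (2 * n - 1) * s with hM
  have hMs : M + i + s = n * (2 * s) + i := by
    have : (2 * n - 1) * s + s = n * (2 * s) := by
      have h2 : 2 * n - 1 + 1 = 2 * n := by omega
      calc (2 * n - 1) * s + s = (2 * n - 1 + 1) * s := by ring
        _ = n * (2 * s) := by rw [h2]; ring
    omega
  obtain ⟨r1, hr1⟩ := cng_two b (M + i)
  obtain ⟨r2, hr2⟩ := cng_contr b (b ^ (2 ^ (M + i))) r1 s
  refine ⟨2 * r2, ?_⟩
  calc it b (-b) i = it b (-b) (M + i + s) := by rw [hMs, cng_per b n hper]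
    _ = it b (it b (-b) (M + i)) s := by rw [it_add]
    _ = it b (b ^ (2 ^ (M + i))) s + 2 ^ (s + 1) * r2 := by rw [hr1, hr2]
    _ = it b (b ^ (2 ^ (M + i))) s + 2 ^ s * (2 * r2) := by ring

end Pool.Agent.EDG.H15
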