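import Mathlib
import Pool.Agent.EDG.StmtsC

/-! EDG row DIS: the discriminant count for a monic divisor of the periodic point polynomial. -/

set_option autoImplicit false

namespace Pool.Agent.EDG.H15

open Polynomial Pool.Agent.EDG.C

lemma ev_eq (c x : ℂ) (P : ℂ[X][X]) : (P.map (evalRingHom c)).eval x = ev c x P := by
  rw [eval_map]
  rfl

/-- the derivative of the iterate, evaluated -/
lemma itc_deriv (c x : ℂ) (hE : ∀ n, ev c x (itc ℂ n) = (fc c)^[n] x) (n : ℕ) :
    (derivative ((itc ℂ n).map (evalRingHom c))).eval x = ∏ j ∈ Finset.range n, (2 * (fc c)^[j] x) := by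
  induction n with
  | zero => simp [itc]
  | succ n ih =>
    rw [Finset.prod_range_succ, ← ih, ← hE n, ← ev_eq]
    simp only [itc, Polynomial.map_add, Polynomial.map_pow, map_C, derivative_add, derivative_pow,
      derivative_C, add_zero, eval_mul, eval_pow, Nat.cast_ofNat]
    simp
    ring

lemma phi_deriv (c x : ℂ) (hE : ∀ n, ev c x (itc ℂ n) = (fc c)^[n] x) (n : ℕ) :
    (derivative ((phi n).map (evalRingHom c))).eval x = ∏ j ∈ Finset.range n, (2 * (fc c)^[j] x) - 1 := by
  rw [phi, Polynomial.map_sub, derivative_sub, eval_sub, itc_deriv c x hE n]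
  simp

lemma phi_eval (c x : ℂ) (hE : ∀ n, ev c x (itc ℂ n) = (fc c)^[n] x) (n : ℕ) :
    ((phi n).map (evalRingHom c)).eval x = (fc c)^[n] x - x := by
  rw [ev_eq, phi, map_sub, hE n]
  simp [ev]

theorem dis (hEVI : EviStmt) (hPRX : PrxStmt) (hCOD : CodStmt) (hPRE : PreStmt) : DisStmt := by
  classical
  intro n m R Cf hn hR hRC hm s hs
  obtain ⟨hE, -, hphi, -⟩ := hEVI
  set c : ℂ := -(s : ℂ) ^ 2 with hc
  have hs0 : (0 : ℝ) < s := by linarith
  have hs1 : (1 : ℝ) ≤ s := by linarith
  set ec := evalRingHom c with hec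
  have hphim := (hphi n hn).1
  have hCf : Cf.Monic := by
    have : (R * Cf).Monic := by rw [hRC]; exact hphim
    exact hR.of_mul_monic_left this
  set Rc := R.map ec with hRc
  set Cc := Cf.map ec with hCc
  have hRcm : Rc.Monic := hR.map ec
  have hCcm : Cc.Monic := hCf.map ec
  have hdegR : Rc.natDegree = R.natDegree := hR.natDegree_map ec
  have hdegC : Cc.natDegree = Cf.natDegree := hCf.natDegree_map ec
  have hprod : Rc * Cc = (phi n).map ec := by rw [hRc, hCc, ← Polynomial.map_mul, hRC]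
  -- periodic points
  have hper : ∀ x, Rc.IsRoot x → (fc c)^[n] x = x := by
    intro x hx
    have h1 := phi_eval c x (fun n => hE ℂ c x n) n
    rw [← hec, ← hprod, eval_mul, hx.eq_zero, zero_mul] at h1
    exact (sub_eq_zero.mp h1.symm)
  have hderiv : ∀ x, Rc.IsRoot x →
      (derivative Rc).eval x * Cc.eval x = ∏ j ∈ Finset.range n, (2 * (fc c)^[j] x) - 1 := by
    intro x hx
    have h1 := phi_deriv c x (fun n => hE ℂ c x n) n
    rw [← hec, ← hprod, derivative_mul, eval_add, eval_mul, eval_mul, hx.eq_zero, zero_mul, add_zero] at h1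
    exact h1
  have hbig : ∀ x, Rc.IsRoot x → s ^ n / 2 ≤ ‖(derivative Rc).eval x‖ * ‖Cc.eval x‖ := by
    intro x hx
    rw [← norm_mul, hderiv x hx]
    have h2 : s ^ n ≤ ‖∏ j ∈ Finset.range n, (2 * (fc c)^[j] x)‖ := by
      rw [norm_prod]
      calc s ^ n = ∏ _j ∈ Finset.range n, s := by simp
        _ ≤ _ := Finset.prod_le_prod (fun _ _ => hs0.le)
            (fun j _ => (hPRX s n x hs hn (hper x hx) j).2.1)
    have h3 : ‖∏ j ∈ Finset.range n, (2 * (fc c)^[j] x)‖ - 1 ≤
        ‖∏ j ∈ Finset.range n, (2 * (fc c)^[j] x) - 1‖ := by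
      have := norm_sub_norm_le (∏ j ∈ Finset.range n, (2 * (fc c)^[j] x)) 1
      simpa using this
    have h4 : (4 : ℝ) ≤ s ^ n := by
      calc (4 : ℝ) ≤ s := hs
        _ = s ^ 1 := (pow_one s).symm
        _ ≤ s ^ n := pow_le_pow_right₀ hs1 hn
    linarith
  have hsn : 0 < s ^ n / 2 := by positivity
  have hRne : Rc ≠ 0 := hRcm.ne_zero
  -- simple roots
  have hnodup : Rc.roots.Nodup := by
    rw [Multiset.nodup_iff_count_le_one]
    intro x
    rw [count_roots]
    by_contra hcon
    push Not at hcon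
    have h1 := (one_lt_rootMultiplicity_iff_isRoot hRne).mp hcon
    have h2 := hbig x h1.1
    have h3 : (derivative Rc).eval x = 0 := h1.2
    rw [h3] at h2
    simp at h2
    linarith
  have hsplit : Rc.Splits := IsAlgClosed.splits Rc
  set A := Rc.roots.toFinset with hA
  have hAroots : A.val = Rc.roots := by rw [hA, Multiset.toFinset_val, Multiset.dedup_eq_self.mpr hnodup]
  have hAcard : A.card = R.natDegree := by
    rw [Finset.card_def, hAroots, ← hdegR, hsplit.natDegree_eq_card_roots]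
  have hAmem : ∀ x ∈ A, Rc.IsRoot x := by
    intro x hx
    rw [hA, Multiset.mem_toFinset] at hx
    exact (mem_roots hRne).mp hx
  -- resultant
  have hres : (resultant R Cf).eval c = ∏ x ∈ A, Cc.eval x := by
    have h1 : resultant Rc Cc = (resultant R Cf).eval c := by
      have := resultant_map_map R Cf R.natDegree Cf.natDegree ec
      rw [hdegR, hdegC, hRc, hCc, this, hec]
      rfl
    rw [← h1, resultant_eq_prod_eval Rc Cc Cc.natDegree le_rfl hsplit, hRcm.leadingCoeff, one_pow, one_mul,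
      ← hAroots]
    rfl
  -- derivative product
  have hder : ∏ x ∈ A, ‖(derivative Rc).eval x‖ = ∏ p ∈ A.offDiag, ‖p.1 - p.2‖ := by
    have h1 : ∀ x ∈ A, ‖(derivative Rc).eval x‖ = ∏ y ∈ A.erase x, ‖x - y‖ := by
      intro x hx
      have hx' : x ∈ Rc.roots := by rw [← hAroots]; exact hx
      rw [hsplit.eval_root_derivative hRcm hx', ← hAroots, ← Finset.erase_val]
      rw [← norm_prod]
      rfl
    rw [Finset.prod_congr rfl h1, Finset.prod_sigma']
    refine Finset.prod_bij' (fun p _ => (p.1, p.2)) (fun p _ => ⟨p.1, p.2⟩) ?_ ?_ ?_ ?_ ?_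
    · intro p hp
      simp only [Finset.mem_sigma, Finset.mem_erase] at hp
      simp only [Finset.mem_offDiag]
      exact ⟨hp.1, hp.2.2, fun h => hp.2.1 h.symm⟩
    · intro p hp
      simp only [Finset.mem_offDiag] at hp
      simp only [Finset.mem_sigma, Finset.mem_erase]
      exact ⟨hp.1, fun h => hp.2.2 h.symm, hp.2.1⟩
    · intro p _; rfl
    · intro p _; rfl
    · intro p _; rfl
  -- codes
  have hcodne : ∀ x ∈ A, ∀ y ∈ A, x ≠ y → code s n x ≠ code s n y := by
    intro x hx y hy hxy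
    exact (hCOD s n x y hs hn (hper x (hAmem x hx)) (hper y (hAmem y hy)) hxy).1
  have hinj : Set.InjOn (code s n) (A : Set ℂ) := by
    intro x hx y hy hxy
    by_contra hne
    exact hcodne x hx y hy hne hxy
  set B := A.image (code s n) with hB
  have hBcard : B.card = A.card := Finset.card_image_of_injOn hinj
  have hsum : ∑ p ∈ A.offDiag, (1 - (lcp (code s n p.1) (code s n p.2) : ℤ)) ≤ (m : ℤ) * R.natDegree := by
    have h1 := hPRE n m B (by rw [hBcard, hAcard]; exact hm)
    rw [hBcard, hAcard] at h1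
    refine le_trans (le_of_eq ?_) h1
    refine Finset.sum_bij' (fun p _ => (code s n p.1, code s n p.2))
      (fun q _ => (Function.invFunOn (code s n) (A : Set ℂ) q.1, Function.invFunOn (code s n) (A : Set ℂ) q.2)) ?_ ?_ ?_ ?_ ?_
    · intro p hp
      simp only [Finset.mem_offDiag] at hp ⊢
      exact ⟨Finset.mem_image_of_mem _ hp.1, Finset.mem_image_of_mem _ hp.2.1,
        hcodne _ hp.1 _ hp.2.1 hp.2.2⟩
    · intro q hq
      simp only [Finset.mem_offDiag, hB, Finset.mem_image] at hq ⊢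
      obtain ⟨⟨a, ha, ha'⟩, ⟨b, hb, hb'⟩, hab⟩ := hq
      have e1 : Function.invFunOn (code s n) (A : Set ℂ) q.1 ∈ (A : Set ℂ) :=
        Function.invFunOn_mem ⟨a, ha, ha'⟩
      have e2 : Function.invFunOn (code s n) (A : Set ℂ) q.2 ∈ (A : Set ℂ) :=
        Function.invFunOn_mem ⟨b, hb, hb'⟩
      refine ⟨e1, e2, fun h => hab ?_⟩
      have f1 : code s n (Function.invFunOn (code s n) (A : Set ℂ) q.1) = q.1 :=
        Function.invFunOn_eq ⟨a, ha, ha'⟩
      have f2 : code s n (Function.invFunOn (code s n) (A : Set ℂ) q.2) = q.2 :=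
        Function.invFunOn_eq ⟨b, hb, hb'⟩
      rw [← f1, ← f2, h]
    · intro p hp
      simp only [Finset.mem_offDiag] at hp
      have f1 : Function.invFunOn (code s n) (A : Set ℂ) (code s n p.1) = p.1 :=
        hinj.leftInvOn_invFunOn hp.1
      have f2 : Function.invFunOn (code s n) (A : Set ℂ) (code s n p.2) = p.2 :=
        hinj.leftInvOn_invFunOn hp.2.1
      simp only [f1, f2]
    · intro q hq
      simp only [Finset.mem_offDiag, hB, Finset.mem_image] at hq
      obtain ⟨⟨a, ha, ha'⟩, ⟨b, hb, hb'⟩, hab⟩ := hq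
      have f1 : code s n (Function.invFunOn (code s n) (A : Set ℂ) q.1) = q.1 :=
        Function.invFunOn_eq ⟨a, ha, ha'⟩
      have f2 : code s n (Function.invFunOn (code s n) (A : Set ℂ) q.2) = q.2 :=
        Function.invFunOn_eq ⟨b, hb, hb'⟩
      simp only [f1, f2]
    · intro p _; rfl
  have hdiff : ∏ p ∈ A.offDiag, ‖p.1 - p.2‖ ≤ 3 ^ (R.natDegree ^ 2) * s ^ (m * R.natDegree) := by
    have h1 : ∀ p ∈ A.offDiag, ‖p.1 - p.2‖ ≤ 3 * s ^ (1 - (lcp (code s n p.1) (code s n p.2) : ℤ)) := by
      intro p hp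
      simp only [Finset.mem_offDiag] at hp
      have h2 := (hCOD s n p.1 p.2 hs hn (hper _ (hAmem _ hp.1)) (hper _ (hAmem _ hp.2.1)) hp.2.2).2
      rw [zpow_sub₀ hs0.ne', zpow_one, zpow_natCast, ← mul_div_assoc, le_div_iff₀ (by positivity)]
      exact h2
    calc ∏ p ∈ A.offDiag, ‖p.1 - p.2‖
        ≤ ∏ p ∈ A.offDiag, (3 * s ^ (1 - (lcp (code s n p.1) (code s n p.2) : ℤ))) :=
          Finset.prod_le_prod (fun _ _ => norm_nonneg _) h1
      _ = 3 ^ A.offDiag.card * ∏ p ∈ A.offDiag, s ^ (1 - (lcp (code s n p.1) (code s n p.2) : ℤ)) := by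
          rw [Finset.prod_mul_distrib, Finset.prod_const]
      _ = 3 ^ A.offDiag.card * s ^ (∑ p ∈ A.offDiag, (1 - (lcp (code s n p.1) (code s n p.2) : ℤ))) := by
          congr 1
          induction A.offDiag using Finset.induction_on with
          | empty => simp
          | insert a S ha ih => rw [Finset.prod_insert ha, Finset.sum_insert ha, zpow_add₀ hs0.ne', ih]
      _ ≤ 3 ^ (R.natDegree ^ 2) * s ^ ((m : ℤ) * R.natDegree) := by
          apply mul_le_mul
          · apply pow_le_pow_right₀ (by norm_num)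
            rw [Finset.offDiag_card, hAcard, sq]
            exact Nat.sub_le _ _
          · exact zpow_le_zpow_right₀ hs1 hsum
          · positivity
          · positivity
      _ = 3 ^ (R.natDegree ^ 2) * s ^ (m * R.natDegree) := by
          rw [← Nat.cast_mul, zpow_natCast]
  calc (s ^ n / 2) ^ R.natDegree = ∏ _x ∈ A, (s ^ n / 2) := by rw [Finset.prod_const, hAcard]
    _ ≤ ∏ x ∈ A, (‖(derivative Rc).eval x‖ * ‖Cc.eval x‖) :=
        Finset.prod_le_prod (fun _ _ => hsn.le) (fun x hx => hbig x (hAmem x hx))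
    _ = (∏ p ∈ A.offDiag, ‖p.1 - p.2‖) * ‖(resultant R Cf).eval c‖ := by
        rw [Finset.prod_mul_distrib, hder, hres, norm_prod]
    _ ≤ 3 ^ (R.natDegree ^ 2) * s ^ (m * R.natDegree) * ‖(resultant R Cf).eval c‖ :=
        mul_le_mul_of_nonneg_right hdiff (norm_nonneg _)

end Pool.Agent.EDG.H15
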